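import Pool.Agent.W2helper63.LG.T

set_option autoImplicit false

/-!
# Long windows without primes `|n² + a|` near `√(-a)`, where the Hardy-Littlewood formula fails

For at least `X^(1-ε)` integers `-X ≤ a ≤ -1` there is no prime `|n² + a|` with
`|n - √(-a)| ≤ c log X (log₂ X)³ (log₄ X)² / (log₃ X)⁴`, although the number of primes which the formula of Hardy and
Littlewood predicts, with the constant `h_a`, tends to infinity. For almost all `a` the formula holds near `√(-a)` from
the length `T log X` on, `T → ∞` (starting file `OptimalWindows`).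

Method. Near `√(-a)`, `n = s + i`, `-a = s² + r`, and near a point which may be moved a little, both lower coefficients of
the polynomial in `i` are free, so that two arbitrary residue classes modulo every prime `p ≤ ε log X` can be prescribed
for its zeros. Choice of the classes (Erdős-Rankin with two classes): for the medium primes the classes `0` and `h`,
where `h` is such that there are few `k` for which both `k` and `h - k` have no medium prime factor (in the mean over `h`;
Chebyshev's bound and Rankin's bound for smooth numbers); for the small primes greedily two classes; for the large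
primes the survivors. The product `h_a`: the primes up to `ε log X` trivially, the primes between `ε log X` and
`(log X)⁶` by a second moment over the class of `a` modulo the product of the primes up to `ε log X`, the rest by the
large sieve (`Pool/Agent/R460/SC`, starting files), for most `a` of the class in every interval of length `√X`. From the
starting files also: the count of the smooth numbers (`Pool/Agent/H398R2/RK`).
-/

namespace Pool.Agent.Results.MP_391708_nt.EmptyWindowsNearRoot

open Finset Filter Topology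

/-- the product which defines `h_a`, over the odd primes `w ≤ z` (`jacobiSym (-a) w` is the Legendre symbol) -/
noncomputable def product (a : ℤ) (z : ℕ) : ℝ :=
  ∏ w ∈ (Icc 3 z).filter Nat.Prime, (1 - (jacobiSym (-a) w : ℝ) / ((w : ℝ) - 1))

/-- `h = h_a`: the product over the odd primes, in increasing order, converges to `h` -/
def IsConstant (a : ℤ) (h : ℝ) : Prop := Tendsto (product a) atTop (𝓝 h)

/-- `h ∑ 1 / log |n² + a|` over `n ∈ S`: for `h = h_a` the number of the primes `|n² + a|`, `n ∈ S`, predicted by Hardy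
and Littlewood -/
noncomputable def predicted (h : ℝ) (a : ℤ) (S : Finset ℤ) : ℝ :=
  h * ∑ n ∈ S, 1 / Real.log ((|n ^ 2 + a| : ℤ) : ℝ)

/-- `log X (log₂ X)³ (log₄ X)² / (log₃ X)⁴`, where `log₂`, `log₃`, `log₄` are the iterated logarithms -/
noncomputable def len (X : ℝ) : ℝ :=
  Real.log X * Real.log (Real.log X) ^ 3 * Real.log (Real.log (Real.log (Real.log X))) ^ 2 /
    Real.log (Real.log (Real.log X)) ^ 4

/-- the integers `n` with `|n - x| ≤ r` -/
noncomputable def window (x r : ℝ) : Finset ℤ := Icc ⌈x - r⌉ ⌊x + r⌋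

/-- No prime in the window: `-a` is not a square, every value `n² + a`, `|n - x| ≤ r`, has a prime factor
`p ≤ ε log X` with `p < |n² + a|`, the product `h_a` converges, and the number of primes predicted for every set `S` of
integers of the window is at least `c #S / (log X log log X)`. -/
def Gap (ε c r : ℝ) (X : ℕ) (x : ℝ) (a : ℤ) : Prop :=
  ¬ IsSquare (-a) ∧
  (∀ n ∈ window x r, ∃ p : ℕ, p.Prime ∧ (p : ℝ) ≤ ε * Real.log X ∧ (p : ℤ) ∣ n ^ 2 + a ∧ (p : ℤ) < |n ^ 2 + a|) ∧
  ∃ h : ℝ, IsConstant a h ∧ ∀ S ⊆ window x r, c * #S / (Real.log X * Real.log (Real.log X)) ≤ predicted h a S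

/-- the shorter length `log X (log₂ X)² (log₄ X)² / (log₃ X)³` -/
noncomputable def len' (X : ℝ) : ℝ :=
  Real.log X * Real.log (Real.log X) ^ 2 * Real.log (Real.log (Real.log (Real.log X))) ^ 2 /
    Real.log (Real.log (Real.log X)) ^ 3

open Classical in
/-- **Empty windows near the square root of `-a`.** Let `len X = log X (log₂ X)³ (log₄ X)² / (log₃ X)⁴`,
`len' X = len X log₃ X / log₂ X`; then `len' X / (log X log₂ X) → ∞`. For every `ε > 0` there is `c > 0` such that for all
large `X`:
(1) for at least `X^(1-ε)` integers `-X ≤ a ≤ -1` there is no prime `|n² + a|` with `|n - √(-a)| ≤ c len X`, while the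
number of primes predicted for any set `S` of such `n` is at least `c #S / (log X log₂ X)`;
(2) such windows exist everywhere: for every `U`, `|U| ≤ X`, there is a centre `u`, `U ≤ u ≤ U + X^ε`, such that in every
interval `(b, b + M]` of length `M ≥ √X` in `[-X, X]` there are at least `M / X^ε` integers `a` without primes `|n² + a|`,
`|n - u| ≤ c len X`, and with the same lower bound for the predicted numbers;
(3) for every centre `u`, `|u| ≤ X`, this holds for `|n - u| ≤ c len' X`: for example with `u = s` for at least `s / X^ε`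
integers `a` between `-(s + 1)²` and `-s²`, for every `s` with `√X ≤ 2 s`, `(s + 1)² ≤ X`. -/
theorem result :
    (Tendsto (fun X : ℝ => len X / (Real.log X * Real.log (Real.log X))) atTop atTop ∧
      Tendsto (fun X : ℝ => len' X / (Real.log X * Real.log (Real.log X))) atTop atTop) ∧
    ∀ ε : ℝ, 0 < ε → ∃ c : ℝ, 0 < c ∧ ∃ X₀ : ℕ, ∀ X : ℕ, X₀ ≤ X →
      ((X : ℝ) ^ (1 - ε) ≤ #((Icc (-(X : ℤ)) (-1)).filter (fun a : ℤ => Gap ε c (c * len X) X (√(-(a : ℝ))) a))) ∧
      (∀ U : ℤ, |U| ≤ X → ∃ u : ℤ, U ≤ u ∧ (u : ℝ) ≤ U + (X : ℝ) ^ ε ∧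
        ∀ b : ℤ, ∀ M : ℕ, √X ≤ M → -(X : ℤ) ≤ b → b + M ≤ X →
          (M : ℝ) / (X : ℝ) ^ ε ≤ #((Ioc b (b + M)).filter (fun a : ℤ => Gap ε c (c * len X) X u a))) ∧
      ∀ u b : ℤ, ∀ M : ℕ, |u| ≤ X → √X ≤ M → -(X : ℤ) ≤ b → b + M ≤ X →
        (M : ℝ) / (X : ℝ) ^ ε ≤ #((Ioc b (b + M)).filter (fun a : ℤ => Gap ε c (c * len' X) X u a)) := by
  refine ⟨⟨Pool.Agent.W2helper63.LG.tends 3 (by norm_num), Pool.Agent.W2helper63.LG.tends 2 le_rfl⟩, fun ε hε => ?_⟩
  obtain ⟨c, hc, X₀, h⟩ := Pool.Agent.W2helper63.LG.main ε hε
  refine ⟨c, hc, X₀, fun X hX => ?_⟩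
  obtain ⟨-, h1, h2, h3⟩ := h X hX
  exact ⟨h2, h3, h1⟩

end Pool.Agent.Results.MP_391708_nt.EmptyWindowsNearRoot
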